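import Mathlib

namespace Pool.Agent.Results.MP_250e3d_co.Counter

/-- `S* = (S \ {2h}) + 2h`. -/
def star (h : ℕ) (S : Set (ZMod (4 * h))) : Set (ZMod (4 * h)) :=
  {x | ∃ s ∈ S, s ≠ (2 * h : ℕ) ∧ x = s + (2 * h : ℕ)}

/-- `σ` is an automorphism of `Cay(ℤ_n, T)`, where `x ~ y` iff `y - x ∈ T`. -/
def IsAut {n : ℕ} (T : Set (ZMod n)) (σ : Equiv.Perm (ZMod n)) : Prop :=
  ∀ x y, σ y - σ x ∈ T ↔ y - x ∈ T

/-- `K_o = K \ 2K`. -/
def odd {n : ℕ} (K : AddSubgroup (ZMod n)) : Set (ZMod n) :=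
  {x | x ∈ K ∧ ¬ ∃ k ∈ K, x = 2 * k}

/-- `(S \ K_o) + ⟨h⟩ ⊆ S ∪ K_o`. -/
def Cond (h : ℕ) (S : Set (ZMod (4 * h))) (K : AddSubgroup (ZMod (4 * h))) : Prop :=
  ∀ s ∈ S, s ∉ odd K → ∀ t ∈ AddSubgroup.zmultiples ((h : ℕ) : ZMod (4 * h)),
    s + t ∈ S ∪ odd K

def S0 : Finset (ZMod (4 * 3)) := {1, 2, 3, 5, 7, 9, 10, 11}

theorem result : ∃ (h : ℕ) (S : Set (ZMod (4 * h))), 1 ≤ h ∧ (∀ s ∈ S, -s ∈ S) ∧
    (∃ σ : Equiv.Perm (ZMod (4 * h)), IsAut (star h S) σ ∧ σ 0 = 0 ∧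
      σ (2 * h : ℕ) ≠ (2 * h : ℕ)) ∧
    (∀ (K : AddSubgroup (ZMod (4 * h))) (q : ℕ), Odd q → Nat.card K = 2 * q → ¬ Cond h S K) ∧
    (0 ∉ S ∧ 1 ∈ S ∧ 2 ∈ S ∧ ∀ c : ZMod (4 * h), (∀ x, x + c ∈ S ↔ x ∈ S) → c = 0) := by
  refine ⟨3, (S0 : Set (ZMod (4 * 3))), by norm_num, ?_, ⟨Equiv.swap 6 2, ?_, by decide, by decide⟩, ?_, ?_⟩
  · simp only [Finset.mem_coe]; decide
  · unfold IsAut star
    simp only [Set.mem_setOf_eq, Finset.mem_coe]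
    decide +kernel
  · intro K q hq hK hc
    have h1 : (1 : ZMod (4 * 3)) ∉ K := by
      intro h1
      have : K = ⊤ := by
        rw [eq_top_iff]
        intro x _
        have := K.nsmul_mem h1 x.val
        simpa using this
      subst this
      rw [AddSubgroup.card_top, Nat.card_zmod] at hK
      obtain ⟨r, rfl⟩ := hq
      omega
    have := hc 1 (by simp only [Finset.mem_coe]; decide) (fun h => h1 h.1) _
      (AddSubgroup.mem_zmultiples _)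
    rcases this with h | h
    · simp only [Finset.mem_coe] at h
      revert h; decide
    · apply h.2
      refine ⟨_, K.neg_mem h.1, ?_⟩
      decide
  · simp only [Finset.mem_coe]
    decide

end Pool.Agent.Results.MP_250e3d_co.Counter
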